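import Mathlib
import Pool.Agent.H.MP_55e6a3_gt.A

set_option autoImplicit false

namespace Pool.Agent.H.MP_7b70e8_gt

open Set Filter Topology Cardinal Pool.Agent.H.MP_55e6a3_gt

structure Bl where
  b : ℕ → Set ℕ
  fin : ∀ k, (b k).Finite
  ne : ∀ k, (b k).Nonempty
  ge : ∀ k, b k ⊆ Ici k

def Un (m : ℕ) (P : Bl) (a : Set ℕ) : Prop := ∀ i ∈ a, m ≤ i → ∃ k, i ∈ P.b k ∧ P.b k ⊆ a

def St (P : Bl) : Set (Set ℕ) := {x | x.Infinite ∧ ∃ m, Un m P x}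

def les (Q P : Bl) : Prop := ∃ m, ∀ k, Un m P (Q.b k)

def E (x : Set ℕ) : Set (Set ℕ) := {y | ∃ m, ∀ i ≥ m, i ∈ y ↔ i ∈ x}

def Opn (U : Set (Set ℕ)) : Prop := ∀ x ∈ U, ∃ m, ∀ y, (∀ i < m, i ∈ y ↔ i ∈ x) → y ∈ U

theorem Un.tr {m k : ℕ} {P Q : Bl} {a : Set ℕ} (h : Un m Q a) (h' : ∀ j, Un k P (Q.b j)) :
    Un (max m k) P a := fun i hi h1 => by
  obtain ⟨j, h2, h3⟩ := h i hi (le_of_max_le_left h1)
  obtain ⟨l, h4, h5⟩ := h' j i h2 (le_of_max_le_right h1)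
  exact ⟨l, h4, h5.trans h3⟩

theorem les.rfl {P : Bl} : les P P := ⟨0, fun k _ hi _ => ⟨k, hi, subset_rfl⟩⟩

theorem les.trans {R Q P : Bl} (h : les R Q) (h' : les Q P) : les R P := by
  obtain ⟨m, h⟩ := h
  obtain ⟨k, h'⟩ := h'
  exact ⟨_, fun j => (h j).tr h'⟩

theorem les.sub {Q P : Bl} (h : les Q P) : St Q ⊆ St P := by
  rintro x ⟨h1, m, hm⟩
  obtain ⟨k, h⟩ := h
  exact ⟨h1, _, hm.tr h⟩

theorem bd {a : Set ℕ} (h : a.Finite) : ∃ m, a ⊆ Iio m := by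
  obtain ⟨m, hm⟩ := h.bddAbove
  exact ⟨m + 1, fun i hi => Nat.lt_succ_of_le (hm hi)⟩

theorem far (d : ℕ → Set ℕ) (h : ∀ k, (d k).Finite) (n : ℕ) :
    ∃ m, ∀ k, ∀ i ∈ d k, m ≤ i → n ≤ k := by
  obtain ⟨m, hm⟩ := bd ((finite_Iio n).biUnion fun k _ => h k)
  exact ⟨m, fun k i hi h1 => not_lt.1 fun h2 => h1.not_gt (hm (mem_biUnion h2 hi))⟩

theorem infE {x y : Set ℕ} (hx : x.Infinite) (hy : y ∈ E x) : y.Infinite := by
  obtain ⟨m, hm⟩ := hy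
  exact (hx.diff (finite_Iio m)).mono fun i hi => (hm i (not_lt.1 hi.2)).2 hi.1

theorem StE {P : Bl} {x y : Set ℕ} (hx : x ∈ St P) (hy : y ∈ E x) : y ∈ St P := by
  refine ⟨infE hx.1 hy, ?_⟩
  obtain ⟨-, m, hm⟩ := hx
  obtain ⟨k, hk⟩ := hy
  obtain ⟨n, hn⟩ := far P.b P.fin k
  refine ⟨max (max m k) n, fun i hi h => ?_⟩
  obtain ⟨j, h1, h2⟩ := hm i ((hk i (by omega)).1 hi) (by omega)
  exact ⟨j, h1, fun l hl => (hk l ((hn j i h1 (by omega)).trans (P.ge j hl))).2 (h2 hl)⟩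

theorem finE (m : ℕ) (z : Set ℕ) : {y : Set ℕ | ∀ i ≥ m, i ∈ y ↔ i ∈ z}.Finite := by
  refine Set.Finite.of_finite_image (f := (· ∩ Iio m))
    ((finite_Iio m).powerset.subset ?_) fun x hx y hy h => ?_
  · rintro _ ⟨x, -, rfl⟩
    exact inter_subset_right
  · ext i
    by_cases hi : i < m
    · simpa [hi] using Set.ext_iff.1 h i
    · rw [hx i (not_lt.1 hi), hy i (not_lt.1 hi)]

theorem cE (z : Set ℕ) : (E z).Countable := by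
  rw [E, ofPred_exists]
  exact countable_iUnion fun m => (finE m z).countable

theorem unSt (P : Bl) : (⋃ k, P.b k) ∈ St P := by
  refine ⟨infinite_of_forall_exists_gt fun n => ?_, 0, fun i hi _ =>
    (mem_iUnion.1 hi).imp fun k hk => ⟨hk, subset_iUnion _ k⟩⟩
  obtain ⟨i, hi⟩ := P.ne (n + 1)
  exact ⟨i, mem_iUnion.2 ⟨_, hi⟩, P.ge _ hi⟩

theorem lb {ι : Type} [Countable ι] (c : ι → Bl) (hc : ∀ i j, les (c i) (c j) ∨ les (c j) (c i)) :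
    ∃ Q, ∀ i, les Q (c i) := by
  cases isEmpty_or_nonempty ι
  · exact ⟨⟨fun k => {k}, by simp, by simp, by simp⟩, fun i => isEmptyElim i⟩
  obtain ⟨e, he⟩ := exists_surjective_nat ι
  have h1 : ∀ n, ∃ i, ∀ j < n, les (c i) (c (e j)) := fun n => by
    induction n with
    | zero => exact ⟨e 0, by simp⟩
    | succ n ih =>
      obtain ⟨i, hi⟩ := ih
      rcases hc i (e n) with h | h
      · exact ⟨i, fun j hj => (Nat.lt_succ_iff_lt_or_eq.1 hj).elim (hi j) fun h' => h' ▸ h⟩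
      · exact ⟨e n, fun j hj => (Nat.lt_succ_iff_lt_or_eq.1 hj).elim (fun h' => h.trans (hi j h'))
          fun h' => h' ▸ les.rfl⟩
  choose i hi using h1
  choose! m hm using hi
  let μ : ℕ → ℕ := fun n => max n ((Finset.range n).sup (m n))
  let Q : Bl := ⟨fun n => (c (i n)).b (μ n), fun n => Bl.fin _ _, fun n => Bl.ne _ _,
    fun n => (Bl.ge _ _).trans (Ici_subset_Ici.2 (le_max_left _ _))⟩
  refine ⟨Q, fun j => ?_⟩
  obtain ⟨j, rfl⟩ := he j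
  obtain ⟨l, hl⟩ := far Q.b Q.fin (j + 1)
  exact ⟨l, fun n a ha h => hm n j (hl n a ha h) _ a ha ((Finset.le_sup (f := m n)
    (Finset.mem_range.2 (hl n a ha h))).trans ((le_max_right _ _).trans (Bl.ge _ _ ha)))⟩

theorem seq (R : ℕ → Set ℕ → ℕ → Prop) (l0 : ℕ)
    (h : ∀ l, ∃ a, a.Finite ∧ a.Nonempty ∧ a ⊆ Ici l ∧ ∀ᶠ l' in atTop, R l a l') :
    ∃ (l : ℕ → ℕ) (D : Bl), l 0 = l0 ∧ StrictMono l ∧
      ∀ k, D.b k ⊆ Ico (l k) (l (k + 1)) ∧ R (l k) (D.b k) (l (k + 1)) := by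
  choose a a1 a2 a3 a4 using h
  choose β hβ using fun l => bd (a1 l)
  choose n n1 n2 using fun l => ((a4 l).and ((eventually_gt_atTop l).and
    (eventually_ge_atTop (β l)))).exists
  let l : ℕ → ℕ := fun k => n^[k] l0
  have l2 : ∀ k, l (k + 1) = n (l k) := fun k => Function.iterate_succ_apply' _ _ _
  have l1 : StrictMono l := strictMono_nat_of_lt_succ fun k => l2 k ▸ (n2 _).1
  exact ⟨l, ⟨fun k => a (l k), fun _ => a1 _, fun _ => a2 _, fun k => (a3 _).trans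
    (Ici_subset_Ici.2 (l1.id_le k))⟩, rfl, l1, fun k => ⟨fun i hi => ⟨a3 _ hi,
      l2 k ▸ (hβ _ hi).trans_le (n2 _).2⟩, l2 k ▸ n1 _⟩⟩

theorem stp {l : ℕ → ℕ} {D : Bl} (l1 : StrictMono l) (h : ∀ k, D.b k ⊆ Ico (l k) (l (k + 1)))
    {m k : ℕ} {x : Set ℕ} (hx : Un m D x) (hk : m ≤ l k) :
    (D.b k ⊆ x → x ∩ Iio (l (k + 1)) = x ∩ Iio (l k) ∪ D.b k) ∧
      (¬ D.b k ⊆ x → x ∩ Iio (l (k + 1)) = x ∩ Iio (l k)) := by
  have h1 : ∀ i ∈ x, i < l (k + 1) → i < l k ∨ i ∈ D.b k ∧ D.b k ⊆ x := fun i hi h1 => by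
    refine (lt_or_ge i (l k)).imp_right fun h2 => ?_
    obtain ⟨j, h3, h4⟩ := hx i hi (hk.trans h2)
    have h5 := l1.lt_iff_lt.1 ((h j h3).1.trans_lt h1)
    have h6 := l1.lt_iff_lt.1 (h2.trans_lt (h j h3).2)
    obtain rfl : j = k := by omega
    exact ⟨h3, h4⟩
  have h2 : x ∩ Iio (l k) ⊆ x ∩ Iio (l (k + 1)) :=
    inter_subset_inter_right _ (Iio_subset_Iio (l1 k.lt_succ_self).le)
  exact ⟨fun h3 => Subset.antisymm (fun i hi => (h1 i hi.1 hi.2).imp (⟨hi.1, ·⟩) And.left)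
    (union_subset h2 fun i hi => ⟨h3 hi, (h k hi).2⟩), fun h3 => Subset.antisymm
      (fun i hi => ⟨hi.1, (h1 i hi.1 hi.2).resolve_right fun h => h3 h.2⟩) h2⟩

theorem thin (P : Bl) (f : ℕ → ℕ) :
    ∃ Q : Bl, (∀ k, ∃ j, Q.b k = P.b j) ∧ ∃ᶠ m in atTop, ∀ k, ∀ i ∈ Q.b k, m ≤ i → f m ≤ i := by
  obtain ⟨l, D, -, l1, h⟩ := seq (fun l a l' => (∃ j, a = P.b j) ∧ a ⊆ Ici (f l) ∧ f l ≤ l') 0
    fun l => ⟨P.b (max l (f l)), P.fin _, P.ne _, (P.ge _).trans (by simp),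
      (eventually_ge_atTop (f l)).mono fun _ h => ⟨⟨_, rfl⟩, (P.ge _).trans (by simp), h⟩⟩
  refine ⟨D, fun k => (h k).2.1, frequently_atTop.2 fun n => ⟨l n, l1.id_le n, fun k i hi h1 => ?_⟩⟩
  rcases (Nat.lt_succ_iff.1 (l1.lt_iff_lt.1 (h1.trans_lt ((h k).1 hi).2))).eq_or_lt with rfl | h2
  · exact (h n).2.2.1 hi
  · exact (h n).2.2.2.trans ((l1.monotone h2).trans ((h k).1 hi).1)

def Sm (Q : Bl) (m : ℕ) : Set (Set ℕ) := {a | a.Finite ∧ a.Nonempty ∧ a ⊆ Ici m ∧ Un 0 Q a}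

theorem idem (Q : Bl) : ∃ 𝒰 : Ultrafilter (Set ℕ), (∀ m, ∀ᶠ a in 𝒰, a ∈ Sm Q m) ∧
    ∀ p : Set ℕ → Prop, (∀ᶠ a in 𝒰, p a) ↔ ∀ᶠ a in 𝒰, ∀ᶠ b in 𝒰, p (a ∪ b) := by
  let _ : Semigroup (Set ℕ) := { mul := (· ∪ ·), mul_assoc := union_assoc }
  let _ : Semigroup (Ultrafilter (Set ℕ)) := Ultrafilter.semigroup
  obtain ⟨𝒰, h1, h2⟩ := exists_idempotent_in_compact_subsemigroup
    (M := Ultrafilter (Set ℕ)) Ultrafilter.continuous_mul_left (⋂ m, {𝒰 | Sm Q m ∈ 𝒰})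
    (IsCompact.nonempty_iInter_of_sequence_nonempty_isCompact_isClosed _
      (fun m 𝒰 h => mem_of_superset h fun a ha =>
        ⟨ha.1, ha.2.1, ha.2.2.1.trans (Ici_subset_Ici.2 m.le_succ), ha.2.2.2⟩)
      (fun m => ⟨pure (Q.b m), ⟨Q.fin m, Q.ne m, Q.ge m, fun i hi _ => ⟨m, hi, subset_rfl⟩⟩⟩)
      (ultrafilter_isClosed_basic _).isCompact fun m => ultrafilter_isClosed_basic _)
    (isClosed_iInter fun i => ultrafilter_isClosed_basic _).isCompact fun U hU V hV =>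
      mem_iInter.2 fun m => (Ultrafilter.eventually_mul U V (· ∈ Sm Q m)).2 <| by
        filter_upwards [mem_iInter.1 hU m] with a ha
        filter_upwards [mem_iInter.1 hV m] with b hb
        refine ⟨ha.1.union hb.1, ha.2.1.inl, union_subset ha.2.2.1 hb.2.2.1, ?_⟩
        rintro i (hi | hi) h
        · exact (ha.2.2.2 i hi h).imp fun k h => ⟨h.1, h.2.trans subset_union_left⟩
        · exact (hb.2.2.2 i hi h).imp fun k h => ⟨h.1, h.2.trans subset_union_right⟩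
  exact ⟨𝒰, mem_iInter.1 h1, fun p => by
    have := Ultrafilter.eventually_mul 𝒰 𝒰 p
    erw [h2] at this
    exact this⟩

theorem ul {α : Type} (𝒰 : Ultrafilter α) (p : α → Prop) : ∀ᶠ a in 𝒰, p a ↔ ∀ᶠ b in 𝒰, p b := by
  by_cases h : ∀ᶠ b in 𝒰, p b
  · exact h.mono fun a ha => iff_of_true ha h
  · exact (Ultrafilter.eventually_not.2 h).mono fun a ha => iff_of_false ha h

def Ba (U : Set (Set ℕ)) (l : ℕ) (s : Set ℕ) : Prop := ∀ y ⊆ Ici l, s ∪ y ∈ U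

theorem Ba.mono {U : Set (Set ℕ)} {l k : ℕ} {s : Set ℕ} (h : Ba U l s) (h' : l ≤ k) : Ba U k s :=
  fun y hy => h y (hy.trans (Ici_subset_Ici.2 h'))

theorem Opn.ba {U : Set (Set ℕ)} (h : Opn U) {x : Set ℕ} (hx : x ∈ U) :
    ∀ᶠ l in atTop, Ba U l (x ∩ Iio l) := by
  obtain ⟨m, hm⟩ := h x hx
  refine (eventually_ge_atTop m).mono fun l hl y hy => hm _ fun i hi => ?_
  have : i ∉ y := fun h => by have := hy h; simp at this; omega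
  simp [this, hi.trans_le hl]

theorem Ba.mem {U : Set (Set ℕ)} {l : ℕ} {x : Set ℕ} (h : Ba U l (x ∩ Iio l)) : x ∈ U := by
  have := h _ (inter_subset_right (s := x))
  rwa [← inter_union_distrib_left, Iio_union_Ici, inter_univ] at this

theorem stems {𝒰 : Filter (Set ℕ)} (l : ℕ) {p : Set ℕ → Set ℕ → Prop}
    (h : ∀ s, ∀ᶠ a in 𝒰, p s a) : ∀ᶠ a in 𝒰, ∀ s ⊆ Iio l, p s a :=
  (eventually_all_finite (finite_Iio l).powerset).2 fun s _ => h s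

def Pr (A : Set (Set ℕ)) (v : ℕ → Set (Set ℕ)) (J : ℕ → Set ℕ) (P : Bl) : Prop :=
  ∃ (j n : ℕ → ℕ) (d : ℕ → Set ℕ), StrictMono j ∧ (∀ k, k ≤ n k ∧ j k ∈ J (n k) ∧ d k ⊆ Ici k) ∧
    (∀ x ∈ A, ∀ᶠ k in atTop, x ∈ v (j k)) ∧ ∀ x ∈ St P,
      (∃ᶠ k in atTop, d (2 * k) ⊆ x ∧ d (2 * k + 1) ⊆ x) ∧
      (∀ᶠ k in atTop, d k ⊆ x → x ∈ v (j k)) ∧
      ((∀ᶠ k in atTop, x ∈ v (j k)) ∨ ∀ᶠ k in atTop, x ∈ v (j k) → d k ⊆ x)

theorem fat {Q : Bl} {𝒰 : Ultrafilter (Set ℕ)} (u1 : ∀ m, ∀ᶠ a in 𝒰, a ∈ Sm Q m)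
    (u2 : ∀ p : Set ℕ → Prop, (∀ᶠ a in 𝒰, p a) ↔ ∀ᶠ a in 𝒰, ∀ᶠ b in 𝒰, p (a ∪ b))
    {A : Set (Set ℕ)} {F : ℕ → Set (Set ℕ)} (hF : ∀ x ∈ A, ∀ᶠ l in atTop, x ∈ F l)
    {v : ℕ → Set (Set ℕ)} (hv : ∀ j, Opn (v j)) {J : ℕ → Set ℕ}
    (h : ∀ l, ∀ᶠ a in 𝒰, ∃ j ∈ J l, l ≤ j ∧ F l ⊆ v j ∧ ∀ s ⊆ Iio l, ∃ m, Ba (v j) m (s ∪ a)) :
    ∃ P : Bl, (∀ k, Un 0 Q (P.b k)) ∧ Pr A v J P := by
  classical
  let Ac : ℕ → Set ℕ → Prop := fun l a =>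
    ∃ j ∈ J l, l ≤ j ∧ F l ⊆ v j ∧ ∀ s ⊆ Iio l, ∃ m, Ba (v j) m (s ∪ a)
  let ν : Set ℕ → ℕ := fun a => Nat.findGreatest (Ac · a) (sInf a)
  have h1 : ∀ l, ∀ᶠ a in 𝒰, l ≤ ν a ∧ Ac (ν a) a := fun l => by
    filter_upwards [h l, u1 l] with a h1 h2
    have h3 : l ≤ sInf a := h2.2.2.1 (Nat.sInf_mem h2.2.1)
    exact ⟨Nat.le_findGreatest h3 h1, Nat.findGreatest_spec (P := (Ac · a)) h3 h1⟩
  have h2 : ∀ a, Ac (ν a) a → ∃ j ∈ J (ν a), ν a ≤ j ∧ F (ν a) ⊆ v j ∧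
      ∀ s ⊆ Iio (ν a), ∃ m, Ba (v j) m (s ∪ a) := fun _ h => h
  choose! j j1 j2 j3 j4 using h2
  let G : ℕ → Set ℕ → Prop := fun i s => ∀ᶠ a in 𝒰, ∃ m, Ba (v i) m (s ∪ a)
  let χ : Set ℕ → Prop := fun s => ∀ᶠ a in 𝒰, G (j a) s
  let γ : Set ℕ → Prop := fun s => ∀ᶠ a in 𝒰, χ (s ∪ a)
  have h3 : ∀ (p : Set ℕ → Prop) s, ∀ᶠ a in 𝒰, (∀ᶠ b in 𝒰, p (s ∪ a ∪ b)) ↔ ∀ᶠ b in 𝒰, p (s ∪ b) :=
    fun p s => (ul 𝒰 fun a => ∀ᶠ b in 𝒰, p (s ∪ a ∪ b)).mono fun a ha => by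
      rw [ha, u2 fun b => p (s ∪ b)]
      simp only [union_assoc]
  obtain ⟨l, D, -, l1, hD⟩ := seq (fun l a l' => Un 0 Q a ∧ l ≤ ν a ∧ Ac (ν a) a ∧ j a < l' ∧
      ∀ s ⊆ Iio l, (G (j a) s ↔ χ s) ∧ (χ (s ∪ a) ↔ γ s) ∧ (γ (s ∪ a) ↔ γ s) ∧
        Ba (v (j a)) l' (s ∪ a) ∧
        ∀ i ≤ l, (G i (s ∪ a) ↔ G i s) ∧ (G i s → Ba (v i) l' (s ∪ a))) 0 fun l => by
    obtain ⟨a, a1, a2, a3⟩ := ((u1 l).and ((h1 l).and (stems l fun s => (ul 𝒰 fun a => G (j a) s).and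
      ((ul 𝒰 fun a => χ (s ∪ a)).and ((h3 χ s).and ((eventually_all_finite (finite_Iic l)).2
        fun i _ => (h3 (fun t => ∃ m, Ba (v i) m t) s).and
          (ul 𝒰 fun a => ∃ m, Ba (v i) m (s ∪ a)))))))).exists
    refine ⟨a, a1.1, a1.2.1, a1.2.2.1, ?_⟩
    have e1 : ∀ (U : Set (Set ℕ)) (p : Prop) (t : Set ℕ), (p → ∃ m, Ba U m t) →
        ∀ᶠ l' in atTop, p → Ba U l' t := fun U p t h => by
      by_cases hp : p
      · obtain ⟨m, hm⟩ := h hp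
        exact (eventually_ge_atTop m).mono fun _ h _ => hm.mono h
      · simp [hp]
    filter_upwards [eventually_gt_atTop (j a), (eventually_all_finite (finite_Iio l).powerset).2
      fun s hs => (e1 _ True _ fun _ => j4 a a2.2 s (hs.trans (Iio_subset_Iio a2.1))).and
        ((eventually_all_finite (finite_Iic l)).2 fun i hi =>
          e1 (v i) (G i s) (s ∪ a) ((a3 s hs).2.2.2 i hi).2.2)] with l' e2 e3
    exact ⟨a1.2.2.2, a2.1, a2.2, e2, fun s hs => ⟨(a3 s hs).1, (a3 s hs).2.1, (a3 s hs).2.2.1,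
      (e3 s hs).1 trivial, fun i hi => ⟨((a3 s hs).2.2.2 i hi).1, (e3 s hs).2 i hi⟩⟩⟩
  choose d1 d2 d3 d4 d5 d6 using hD
  let P : Bl := ⟨fun k => D.b (2 * k) ∪ D.b (2 * k + 1), fun k => (D.fin _).union (D.fin _),
    fun k => (D.ne _).inl, fun k => union_subset ((D.ge _).trans (Ici_subset_Ici.2 (by omega)))
      ((D.ge _).trans (Ici_subset_Ici.2 (by omega)))⟩
  have p1 : ∀ k, Un 0 D (P.b k) := by
    rintro k i (hi | hi) -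
    · exact ⟨_, hi, subset_union_left⟩
    · exact ⟨_, hi, subset_union_right⟩
  have p2 : ∀ k, k ≤ ν (D.b k) := fun k => (l1.id_le k).trans (d3 k)
  refine ⟨P, fun k => (p1 k).tr d2, fun k => j (D.b k), fun k => ν (D.b k), D.b,
    strictMono_nat_of_lt_succ fun k => (d5 k).trans_le ((d3 _).trans (j2 _ (d4 _))),
    fun k => ⟨p2 k, j1 _ (d4 k), D.ge k⟩, fun x hx =>
      ((tendsto_atTop_mono p2 tendsto_id).eventually (hF x hx)).mono fun k hk => j3 _ (d4 k) hk, ?_⟩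
  rintro x ⟨x1, m, x2⟩
  have x3 : ∃ᶠ k in atTop, D.b (2 * k) ⊆ x ∧ D.b (2 * k + 1) ⊆ x := frequently_atTop.2 fun n => by
    obtain ⟨c, hc⟩ := far P.b P.fin n
    obtain ⟨i, h4, h5⟩ := x1.exists_gt (max m c)
    obtain ⟨k, h6, h7⟩ := x2 i h4 (by omega)
    exact ⟨k, hc k i h6 (by omega), union_subset_iff.1 h7⟩
  have x4 : ∀ n, ∃ k ≥ n, D.b k ⊆ x := fun n => by
    obtain ⟨k, h4, h5⟩ := frequently_atTop.1 x3 n
    exact ⟨_, by omega, h5.1⟩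
  have x5 := fun k (hk : m ≤ k) => stp l1 d1 (x2.tr p1) ((max_le hk (Nat.zero_le _)).trans
    (l1.id_le k))
  have x6 := fun k => d6 k (x ∩ Iio (l k)) inter_subset_right
  have x7 : ∀ i k, m ≤ k → i ≤ l k → ∀ k' ≥ k, G i (x ∩ Iio (l k')) ↔ G i (x ∩ Iio (l k)) := by
    intro i k h4 h5 k' h6
    induction h6 with
    | refl => rfl
    | @step k' h6 ih =>
      by_cases h7 : D.b k' ⊆ x
      · rw [(x5 k' (h4.trans h6)).1 h7, ((x6 k').2.2.2.2 i (h5.trans (l1.monotone h6))).1, ih]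
      · rw [(x5 k' (h4.trans h6)).2 h7, ih]
  have x8 : ∀ i k, m ≤ k → i ≤ l k → (x ∈ v i ↔ G i (x ∩ Iio (l k))) := fun i k h4 h5 => by
    refine ⟨fun h6 => ?_, fun h6 => ?_⟩
    · obtain ⟨k', h7, h8⟩ := ((eventually_ge_atTop k).and
        (l1.tendsto_atTop.eventually ((hv i).ba h6))).exists
      refine (x7 i k h4 h5 k' h7).1 ((u1 (l k')).mono fun a ha => ⟨l k', fun y hy => ?_⟩)
      rw [union_assoc]
      exact h8 _ (union_subset ha.2.2.1 hy)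
    · obtain ⟨k', h7, h8⟩ := x4 k
      have := ((x6 k').2.2.2.2 i (h5.trans (l1.monotone h7))).2 ((x7 i k h4 h5 k' h7).2 h6)
      rw [← (x5 k' (h4.trans h7)).1 h8] at this
      exact this.mem
  have x9 : ∀ k, m ≤ k → D.b k ⊆ x → x ∈ v (j (D.b k)) := fun k h4 h5 => by
    have := (x6 k).2.2.2.1
    rw [← (x5 k h4).1 h5] at this
    exact this.mem
  obtain ⟨k1, y1, y2⟩ := x4 m
  have y3 : ∀ k ≥ k1 + 1, (γ (x ∩ Iio (l k)) ↔ γ (x ∩ Iio (l k1))) ∧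
      (χ (x ∩ Iio (l k)) ↔ γ (x ∩ Iio (l k1))) := by
    intro k hk
    induction hk with
    | refl => rw [(x5 k1 y1).1 y2]; exact ⟨(x6 k1).2.2.1, (x6 k1).2.1⟩
    | @step k hk ih =>
      have : m ≤ k := y1.trans (Nat.le_of_succ_le hk)
      by_cases h7 : D.b k ⊆ x
      · rw [(x5 k this).1 h7, (x6 k).2.2.1, (x6 k).2.1]; exact ⟨ih.1, ih.1⟩
      · rw [(x5 k this).2 h7]; exact ih
  have y4 : ∀ k ≥ k1 + 1, ¬ D.b k ⊆ x → (x ∈ v (j (D.b k)) ↔ γ (x ∩ Iio (l k1))) :=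
    fun k hk h => by
      rw [x8 _ (k + 1) (by omega) (d5 k).le, (x5 k (by omega)).2 h, (x6 k).1, (y3 k hk).2]
  refine ⟨x3, (eventually_ge_atTop m).mono x9, ?_⟩
  by_cases h : γ (x ∩ Iio (l k1))
  · exact Or.inl ((eventually_ge_atTop (k1 + 1)).mono fun k hk =>
      (em _).elim (x9 k (by omega)) fun h' => (y4 k hk h').2 h)
  · exact Or.inr ((eventually_ge_atTop (k1 + 1)).mono fun k hk h1 =>
      by_contra fun h' => h ((y4 k hk h').1 h1))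

theorem stage {A : Set (Set ℕ)} (hA : A.Countable) (Q : Bl) {v : ℕ → Set (Set ℕ)}
    (hv : ∀ j, Opn (v j)) (J : ℕ → Set ℕ) (f : ℕ → ℕ) : ∃ c : Bl × Set ℕ, les c.1 Q ∧
      c.2 ∈ St Q ∧ (∀ k, c.1.b k ⊆ c.2) ∧ (∃ᶠ m in atTop, ∀ k, ∀ i ∈ c.1.b k, m ≤ i → f m ≤ i) ∧
      ((∃ l F, F.Finite ∧ F ⊆ A ∪ E c.2 ∧ ∀ j ∈ J l, l ≤ j → ¬ F ⊆ v j) ∨
        (c.2 ∈ St c.1 ∧ Pr A v J c.1)) := by
  obtain ⟨𝒰, u1, u2⟩ := idem Q
  obtain ⟨g, hg⟩ := countable_iff_exists_injOn.1 hA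
  have k1 : ∀ {P R : Bl}, (∀ k, Un 0 Q (P.b k)) → (∀ k, ∃ j, R.b k = P.b j) → les R Q ∧ les R P :=
    fun h h' => ⟨⟨0, fun k => (h' k).elim fun j hj => hj ▸ h j⟩, 0, fun k => (h' k).elim
      fun j hj => hj ▸ fun _ hi _ => ⟨j, hi, subset_rfl⟩⟩
  by_cases h : ∀ l, ∀ᶠ a in 𝒰, ∃ j ∈ J l, l ≤ j ∧ A ∩ g ⁻¹' Iic l ⊆ v j ∧
      ∀ s ⊆ Iio l, ∃ m, Ba (v j) m (s ∪ a)
  · obtain ⟨P, p1, j, n, d, p2, p3, p4, p5⟩ := fat (A := A) (F := fun l => A ∩ g ⁻¹' Iic l) u1 u2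
      (fun x hx => (eventually_ge_atTop (g x)).mono fun l hl => ⟨hx, hl⟩) hv h
    obtain ⟨R, r1, r2⟩ := thin P f
    exact ⟨(R, ⋃ k, R.b k), (k1 p1 r1).1, (k1 p1 r1).1.sub (unSt R), subset_iUnion _, r2,
      Or.inr ⟨unSt R, j, n, d, p2, p3, p4, fun x hx => p5 x ((k1 p1 r1).2.sub hx)⟩⟩
  · obtain ⟨l0, h⟩ := not_forall.1 h
    rw [← Ultrafilter.eventually_not] at h
    generalize hB : (fun a => ¬ ∃ j ∈ J l0, l0 ≤ j ∧ A ∩ g ⁻¹' Iic l0 ⊆ v j ∧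
      ∀ s ⊆ Iio l0, ∃ m, Ba (v j) m (s ∪ a)) = B at h
    obtain ⟨l, D, l2, l1, hD⟩ := seq (fun l a _ => Un 0 Q a ∧ ∀ s ⊆ Iio l,
        (∀ᶠ b in 𝒰, B (s ∪ b)) → B (s ∪ a) ∧ ∀ᶠ b in 𝒰, B (s ∪ a ∪ b)) l0 fun l => by
      obtain ⟨a, a1, a2⟩ := ((u1 l).and (stems l (p := fun s a => (∀ᶠ b in 𝒰, B (s ∪ b)) →
          B (s ∪ a) ∧ ∀ᶠ b in 𝒰, B (s ∪ a ∪ b)) fun s => by
        by_cases h : ∀ᶠ b in 𝒰, B (s ∪ b)
        · exact (h.and ((u2 _).1 h)).mono fun a ha _ => by simpa only [union_assoc] using ha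
        · simp [h])).exists
      exact ⟨a, a1.1, a1.2.1, a1.2.2.1, Eventually.of_forall fun _ => ⟨a1.2.2.2, a2⟩⟩
    choose d1 d2 d3 using hD
    obtain ⟨R, r1, r2⟩ := thin D f
    let x := ⋃ k, D.b k
    have x1 := fun k => (stp l1 d1 (x := x) (fun i hi _ => (mem_iUnion.1 hi).imp
      fun k hk => ⟨hk, subset_iUnion _ k⟩) (Nat.zero_le (l k))).1 (subset_iUnion _ k)
    have x2 : x ⊆ Ici l0 := iUnion_subset fun k i hi =>
      l2.ge.trans ((l1.monotone (Nat.zero_le k)).trans (d1 k hi).1)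
    have x3 : ∀ k, ∀ᶠ b in 𝒰, B (x ∩ Iio (l k) ∪ b) := fun k => by
      induction k with
      | zero =>
        rw [l2, eq_empty_of_forall_notMem (s := x ∩ Iio l0) fun i hi => not_lt.2 (mem_Ici.1 (x2 hi.1)) hi.2]
        simpa using h
      | succ k ih => rw [x1]; exact (d3 k _ inter_subset_right ih).2
    refine ⟨(R, x), (k1 d2 r1).1, les.sub ⟨0, d2⟩ (unSt D), fun k => (r1 k).elim fun j hj =>
      hj.le.trans (subset_iUnion _ j), r2, Or.inl ⟨l0, A ∩ g ⁻¹' Iic l0 ∪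
        {y | ∀ i ≥ l0, i ∈ y ↔ i ∈ x}, (Finite.of_finite_image ((finite_Iic l0).subset
          (image_inter_preimage g _ _ ▸ inter_subset_right)) (hg.mono inter_subset_left)).union
          (finE l0 x), union_subset_union inter_subset_left fun y hy => ⟨l0, hy⟩,
          fun j j1 j2 j3 => ?_⟩⟩
    obtain ⟨k, k2⟩ := ((tendsto_add_atTop_nat 1).eventually (l1.tendsto_atTop.eventually
      ((eventually_all_finite (finite_Iio l0).powerset).2 fun s hs =>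
        (hv j).ba (j3 (Or.inr (show s ∪ x ∈ {y | ∀ i ≥ l0, i ∈ y ↔ i ∈ x} from fun i hi =>
          or_iff_right fun h => (hs h).not_ge hi)))))).exists
    have := (d3 k _ inter_subset_right (x3 k)).1
    rw [← x1, ← hB] at this
    refine this ⟨j, j1, j2, subset_union_left.trans j3, fun s hs => ⟨l (k + 1), ?_⟩⟩
    have h1 := k2 s hs
    rwa [union_inter_distrib_right, inter_eq_left.2 (hs.trans (Iio_subset_Iio
      (l2.ge.trans (l1.monotone (Nat.zero_le _)))))] at h1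

structure Tw (X : Set (Set ℕ)) : Prop where
  un : Set.univ ∈ X
  inf : ∀ x ∈ X, x.Infinite
  md : ∀ x ∈ X, E x ⊆ X
  ch : ∀ x ∈ X, ∀ y ∈ X, (∀ᶠ i in atTop, i ∈ x → i ∈ y) ∨ ∀ᶠ i in atTop, i ∈ y → i ∈ x
  sp : ∀ f : ℕ → ℕ, ∃ x ∈ X, ∃ᶠ m in atTop, ∀ i ∈ x, m ≤ i → f m ≤ i
  om : ∀ (v : ℕ → Set (Set ℕ)) (J : ℕ → Set ℕ), (∀ j, Opn (v j)) →
    (∀ l F, F.Finite → F ⊆ X → ∃ j ∈ J l, l ≤ j ∧ F ⊆ v j) →
    ∃ j n : ℕ → ℕ, StrictMono j ∧ (∀ k, k ≤ n k ∧ j k ∈ J (n k)) ∧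
      (∀ x ∈ X, ∃ᶠ k in atTop, x ∈ v (j (2 * k)) ∧ x ∈ v (j (2 * k + 1))) ∧
      ∀ x ∈ X, ∀ y ∈ X, (∀ᶠ k in atTop, x ∈ v (j k) → y ∈ v (j k)) ∨
        ∀ᶠ k in atTop, y ∈ v (j k) → x ∈ v (j k)

theorem main (ch : continuum = (aleph 1 : Cardinal.{0})) : ∃ X, Tw X := by
  classical
  obtain ⟨e⟩ : Nonempty (I ≃ (ℕ → Set (ℕ × Finset ℕ)) × (ℕ → Set ℕ) × (ℕ → ℕ)) := by
    rw [← Cardinal.eq, mkI, ← ch]; simp
  let dc : Set (ℕ × Finset ℕ) → Set (Set ℕ) := fun c => {y | ∃ p ∈ c, ∀ i < p.1, i ∈ y ↔ i ∈ p.2}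
  have dc1 : ∀ c, Opn (dc c) := fun c x ⟨p, h1, h2⟩ =>
    ⟨p.1, fun y hy => ⟨p, h1, fun i hi => (hy i hi).trans (h2 i hi)⟩⟩
  have dc2 : ∀ U, Opn U → ∃ c, dc c = U := fun U hU =>
    ⟨{p | ∀ y, (∀ i < p.1, i ∈ y ↔ i ∈ p.2) → y ∈ U}, Subset.antisymm (fun y ⟨p, h1, h2⟩ => h1 y h2)
      fun x hx => (hU x hx).elim fun m hm => ⟨(m, (Finset.range m).filter (· ∈ x)),
        fun y hy => hm y fun i hi => by simpa [hi] using hy i hi, fun i hi => by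
          simp [show i < m from hi]⟩⟩
  let A : ∀ α : I, (Iio α → Bl × Set ℕ) → Set (Set ℕ) := fun α r => E Set.univ ∪ ⋃ β, E (r β).2
  have h1 : ∀ (α : I) (r : Iio α → Bl × Set ℕ), ∃ Q, (∀ β γ, β < γ → les (r γ).1 (r β).1) →
      ∀ β, les Q (r β).1 := fun α r => by
    by_cases h : ∀ β γ, β < γ → les (r γ).1 (r β).1
    · have := (cIio α).to_subtype
      obtain ⟨Q, hQ⟩ := lb (fun β => (r β).1) fun β γ => by
        rcases lt_trichotomy β γ with h1 | rfl | h1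
        · exact Or.inr (h _ _ h1)
        · exact Or.inl les.rfl
        · exact Or.inl (h _ _ h1)
      exact ⟨Q, fun _ => hQ⟩
    · exact ⟨⟨fun k => {k}, by simp, by simp, by simp⟩, fun h' => (h h').elim⟩
  choose Q hQ using h1
  choose F F1 F2 F3 F4 F5 using fun (α : I) (r : Iio α → Bl × Set ℕ) =>
    haveI := (cIio α).to_subtype
    stage (A := A α r) ((cE _).union (countable_iUnion fun β => cE _)) (Q α r)
      (fun j => dc1 ((e α).1 j)) (e α).2.1 (e α).2.2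
  obtain ⟨c, hc⟩ : ∃ c : I → Bl × Set ℕ, ∀ α, c α = F α fun β => c β :=
    ⟨wellFounded_lt.fix fun α r => F α fun β => r β β.2, fun α => wellFounded_lt.fix_eq _ α⟩
  have k1 : ∀ α β, β < α → les (Q α fun γ => c γ) (c β).1 := by
    intro α
    induction α using WellFoundedLT.induction with
    | ind α ih =>
      refine fun β hβ => hQ α (fun γ => c γ) (fun β γ h => ?_) ⟨β, hβ⟩
      rw [hc γ]
      exact (F1 _ _).trans (ih γ γ.2 β h)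
  have k2 : ∀ α β, β < α → E (c α).2 ⊆ St (c β).1 := fun α β h x hx =>
    StE (by rw [hc α]; exact (k1 α β h).sub (F2 _ _)) hx
  have k3 : ∀ {x y z : Set ℕ}, x ∈ E z → y ∈ E z → ∀ᶠ i in atTop, i ∈ x → i ∈ y :=
    fun ⟨m, hm⟩ ⟨k, hk⟩ => ((eventually_ge_atTop m).and (eventually_ge_atTop k)).mono
      fun i hi h => (hk i hi.2).2 ((hm i hi.1).1 h)
  have k4 : ∀ α β, β ≤ α → ∀ x ∈ E (c α).2, ∀ y ∈ E (c β).2, ∀ᶠ i in atTop, i ∈ x → i ∈ y := by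
    intro α β h x hx y hy
    rcases h.eq_or_lt with rfl | h
    · exact k3 hx hy
    obtain ⟨-, m, hm⟩ := k2 α β h hx
    filter_upwards [eventually_ge_atTop m, k3 ⟨0, fun _ _ => Iff.rfl⟩ hy] with i h1 h2 h3
    obtain ⟨k, h4, -⟩ := hm i h3 h1
    have := F3 β (fun γ => c γ) k
    rw [← hc β] at this
    exact h2 (this h4)
  have k5 : ∀ x ∈ E Set.univ ∪ ⋃ α, E (c α).2, ∀ y ∈ E Set.univ ∪ ⋃ α, E (c α).2,
      (∀ᶠ i in atTop, i ∈ x → i ∈ y) ∨ ∀ᶠ i in atTop, i ∈ y → i ∈ x := by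
    rintro x (hx | hx) y hy
    · exact Or.inr ((k3 ⟨0, fun _ _ => Iff.rfl⟩ hx).mono fun i h _ => h trivial)
    rcases hy with hy | hy
    · exact Or.inl ((k3 ⟨0, fun _ _ => Iff.rfl⟩ hy).mono fun i h _ => h trivial)
    obtain ⟨α, hα⟩ := mem_iUnion.1 hx
    obtain ⟨β, hβ⟩ := mem_iUnion.1 hy
    exact (le_total β α).imp (fun h => k4 α β h x hα y hβ) fun h => k4 β α h y hβ x hα
  have k6 : ∀ {x y z : Set ℕ}, x ∈ E z → y ∈ E x → y ∈ E z := fun ⟨m, hm⟩ ⟨k, hk⟩ =>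
    ⟨max m k, fun i hi => (hk i (le_of_max_le_right hi)).trans (hm i (le_of_max_le_left hi))⟩
  refine ⟨E Set.univ ∪ ⋃ α, E (c α).2, Or.inl ⟨0, fun _ _ => Iff.rfl⟩, ?_, ?_, k5, fun f => ?_,
    fun v J hv hX => ?_⟩
  · rintro x (hx | hx)
    · exact infE infinite_univ hx
    · obtain ⟨α, hα⟩ := mem_iUnion.1 hx
      exact infE (by rw [hc α]; exact (F2 _ _).1) hα
  · rintro x (hx | hx) y hy
    · exact Or.inl (k6 hx hy)
    · obtain ⟨α, hα⟩ := mem_iUnion.1 hx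
      exact Or.inr (mem_iUnion.2 ⟨α, k6 hα hy⟩)
  · let α := e.symm (fun _ => ∅, fun _ => ∅, f)
    obtain ⟨β, hβ⟩ := bddI (countable_singleton α)
    have h4 := F4 α fun γ => c γ
    rw [← hc α, e.apply_symm_apply] at h4
    obtain ⟨-, m, hm⟩ := k2 β α (hβ α rfl) ⟨0, fun _ _ => Iff.rfl⟩
    refine ⟨_, Or.inr (mem_iUnion.2 ⟨β, 0, fun _ _ => Iff.rfl⟩),
      (h4.and_eventually (eventually_ge_atTop m)).mono fun n hn i hi h => ?_⟩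
    obtain ⟨k, h5, -⟩ := hm i hi (hn.2.trans h)
    exact hn.1 k i h5 h
  · choose w hw using fun j => dc2 _ (hv j)
    let α := e.symm (w, J, id)
    have h5 := F5 α fun γ => c γ
    rw [← hc α, e.apply_symm_apply] at h5
    simp only [hw] at h5
    rcases h5 with ⟨l, G, g1, g2, g3⟩ | ⟨g1, j, n, d, g2, g3, g4, g5⟩
    · obtain ⟨j, j1, j2, j3⟩ := hX l G g1 (g2.trans (union_subset (union_subset_union_right _
        (iUnion_subset fun β => subset_iUnion (fun α => E (c α).2) β))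
        ((subset_iUnion (fun α => E (c α).2) α).trans subset_union_right)))
      exact (g3 j j1 j2 j3).elim
    have h6 : ∀ x ∈ E Set.univ ∪ ⋃ α, E (c α).2, x ∈ A α (fun γ => c γ) ∨ x ∈ St (c α).1 := by
      rintro x (hx | hx)
      · exact Or.inl (Or.inl hx)
      obtain ⟨β, hβ⟩ := mem_iUnion.1 hx
      rcases lt_trichotomy β α with h | rfl | h
      · exact Or.inl (Or.inr (mem_iUnion.2 ⟨⟨β, h⟩, hβ⟩))
      · exact Or.inr (StE g1 hβ)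
      · exact Or.inr (k2 β α h hβ)
    have h7 : ∀ x ∈ E Set.univ ∪ ⋃ α, E (c α).2, (∀ᶠ k in atTop, x ∈ v (j k)) ∨
        ∀ᶠ k in atTop, x ∈ v (j k) ↔ d k ⊆ x := fun x hx => (h6 x hx).elim
      (fun h => Or.inl (g4 x h)) fun h => (g5 x h).2.2.imp_right fun h' =>
        (h'.and (g5 x h).2.1).mono fun k hk => ⟨hk.1, hk.2⟩
    have h8 : ∀ {x y : Set ℕ}, (∀ᶠ k in atTop, x ∈ v (j k) ↔ d k ⊆ x) →
        (∀ᶠ k in atTop, y ∈ v (j k) ↔ d k ⊆ y) → (∀ᶠ i in atTop, i ∈ x → i ∈ y) →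
        ∀ᶠ k in atTop, x ∈ v (j k) → y ∈ v (j k) := fun h1 h2 h3 => by
      obtain ⟨m, hm⟩ := eventually_atTop.1 h3
      filter_upwards [h1, h2, eventually_ge_atTop m] with k h4 h5 h6 h7
      exact h5.2 fun i hi => hm i (h6.trans ((g3 k).2.2 hi)) (h4.1 h7 hi)
    have h9 : ∀ {p : ℕ → Prop}, (∀ᶠ k in atTop, p k) → ∀ᶠ k in atTop, p (2 * k) ∧ p (2 * k + 1) :=
      fun h => ((tendsto_atTop_mono (f := id) (fun k => by simp; omega) tendsto_id).eventually h).and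
        ((tendsto_atTop_mono (f := id) (fun k => by simp; omega) tendsto_id).eventually h)
    refine ⟨j, n, g2, fun k => ⟨(g3 k).1, (g3 k).2.1⟩, fun x hx => (h6 x hx).elim
      (fun h => (h9 (g4 x h)).frequently) fun h => ((g5 x h).1.and_eventually
        (h9 (g5 x h).2.1)).mono fun k hk => ⟨hk.2.1 hk.1.1, hk.2.2 hk.1.2⟩, fun x hx y hy => ?_⟩
    rcases h7 x hx with h1 | h1
    · exact Or.inr (h1.mono fun _ h _ => h)
    rcases h7 y hy with h2 | h2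
    · exact Or.inl (h2.mono fun _ h _ => h)
    exact (k5 x hx y hy).imp (h8 h1 h2) (h8 h2 h1)

end Pool.Agent.H.MP_7b70e8_gt
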