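import Mathlib
import Pool.Agent.H.MP_7b70e8_gt.A
import Pool.Agent.H.MP_f722f0_gt.A

set_option autoImplicit false

namespace Pool.Agent.H.MP_7b70e8_gt

open Set Filter Topology Cardinal Pool.Agent.H.MP_9c4169_gt Pool.Agent.H.MP_f722f0_gt

theorem omct {Z : Type} [TopologicalSpace Z] [SecondCountableTopology Z] {𝒰 : Set (Set Z)}
    (h : 𝒰 ∈ Om (Op Z)) : ∃ 𝒱 ⊆ 𝒰, 𝒱.Countable ∧ ∀ F : Set Z, F.Finite → ∃ U ∈ 𝒱, F ⊆ U := by
  have h1 : ∀ S : Set (Set Z), ∃ U ∈ 𝒰, (∃ W ∈ 𝒰, ⋃₀ S ⊆ W) → ⋃₀ S ⊆ U := fun S => by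
    by_cases h2 : ∃ W ∈ 𝒰, ⋃₀ S ⊆ W
    · exact h2.imp fun W hW => ⟨hW.1, fun _ => hW.2⟩
    · exact (h.2 ∅ finite_empty).imp fun W hW => ⟨hW.1, fun h => (h2 h).elim⟩
  choose π h2 h3 using h1
  refine ⟨π '' {S | S.Finite ∧ S ⊆ TopologicalSpace.countableBasis Z}, by
    rintro _ ⟨S, -, rfl⟩; exact h2 S, (countable_setOf_finite_subset
      (TopologicalSpace.countable_countableBasis Z)).image _, fun F hF => ?_⟩
  obtain ⟨W, w1, w2⟩ := h.2 F hF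
  choose! B b1 b2 b3 using fun z (hz : z ∈ W) =>
    (TopologicalSpace.isBasis_countableBasis Z).exists_subset_of_mem_open hz (h.1.1 w1)
  refine ⟨_, ⟨B '' F, ⟨hF.image _, image_subset_iff.2 fun z hz => b1 z (w2 hz)⟩, rfl⟩,
    fun z hz => h3 _ ⟨W, w1, sUnion_subset ?_⟩ ⟨_, ⟨z, hz, rfl⟩, b2 z (w2 hz)⟩⟩
  rintro _ ⟨y, hy, rfl⟩
  exact b3 y (w2 hy)

section
variable {Z : Type} [TopologicalSpace Z] {X : Set (Set ℕ)} {ψ : Z → Set ℕ}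

theorem sel [SecondCountableTopology Z] (hX : Tw X) (h0 : Function.Injective ψ) (h1 : range ψ = X)
    (h3 : ∀ U, IsOpen U → ∃ v, Opn v ∧ ψ ⁻¹' v = U) {𝒰 : ℕ → Set (Set Z)}
    (h : ∀ n, 𝒰 n ∈ Om (Op Z)) : ∃ (U : ℕ → Set Z) (n : ℕ → ℕ), Function.Injective U ∧
      (∀ k, k ≤ n k ∧ U k ∈ 𝒰 (n k)) ∧ (range fun k => U (2 * k)) ∈ Ta (Op Z) ∧
        (range fun k => U (2 * k + 1)) ∈ Ta (Op Z) := by
  choose 𝒱 v1 v2 v3 using fun n => omct (h n)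
  obtain ⟨g, hg⟩ := countable_iff_exists_injOn.1 (countable_iUnion v2)
  have k1 : ∀ j, ∃ v, Opn v ∧ ∀ U ∈ ⋃ n, 𝒱 n, g U = j → ψ ⁻¹' v = U := fun j => by
    by_cases h4 : ∃ U ∈ ⋃ n, 𝒱 n, g U = j
    · obtain ⟨U, u1, rfl⟩ := h4
      obtain ⟨n, hn⟩ := mem_iUnion.1 u1
      obtain ⟨v, h5, h6⟩ := h3 U ((h n).1.1 (v1 n hn))
      exact ⟨v, h5, fun W w1 w2 => h6.trans (hg w1 u1 w2).symm⟩
    · exact ⟨∅, fun _ h => h.elim, fun U h5 h6 => (h4 ⟨U, h5, h6⟩).elim⟩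
  choose v k1 k2 using k1
  have k3 : ∀ U ∈ ⋃ n, 𝒱 n, ∃ z, z ∉ U := fun U hU => by
    obtain ⟨n, hn⟩ := mem_iUnion.1 hU
    exact (ne_univ_iff_exists_notMem U).1 fun h' => (h n).1.2.2 (h' ▸ v1 n hn)
  have : Nonempty Z := range_nonempty_iff_nonempty.1 ⟨_, h1.ge hX.un⟩
  choose! π hπ using k3
  obtain ⟨j, n, j1, j2, j3, j4⟩ := hX.om v (fun l => g '' 𝒱 l) k1 fun l F hF hFX => by
    obtain ⟨U, u1, u2⟩ := v3 l (ψ ⁻¹' F ∪ π '' ((⋃ n, 𝒱 n) ∩ g ⁻¹' Iic l))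
      ((hF.preimage h0.injOn).union ((Finite.of_finite_image ((finite_Iic l).subset
        (image_inter_preimage g _ _ ▸ inter_subset_right)) (hg.mono inter_subset_left)).image _))
    have u3 : U ∈ ⋃ n, 𝒱 n := mem_iUnion.2 ⟨l, u1⟩
    refine ⟨g U, ⟨U, u1, rfl⟩, le_of_not_ge fun h4 => hπ U u3 (u2 (Or.inr ⟨U, ⟨u3, h4⟩, rfl⟩)),
      fun x hx => ?_⟩
    obtain ⟨z, rfl⟩ := h1.ge (hFX hx)
    exact (k2 _ U u3 rfl).ge (u2 (Or.inl hx))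
  choose U u1 u2 using fun k => (j2 k).2
  have u3 : ∀ k, ψ ⁻¹' v (j k) = U k := fun k => k2 _ _ (mem_iUnion.2 ⟨_, u1 k⟩) (u2 k)
  have u4 : Function.Injective U := fun a b h => j1.injective (by rw [← u2, h, u2])
  have u5 : ∀ z, ψ z ∈ X := fun z => h1.le ⟨z, rfl⟩
  have u6 : ∀ a : ℕ → ℕ, StrictMono a → (∀ z, ∃ᶠ k in atTop, z ∈ U (a k)) →
      (range fun k => U (a k)) ∈ Ta (Op Z) := fun a ha h4 =>
    ta_of (u4.comp ha.injective) (fun k => (h _).1.1 (v1 _ (u1 _)))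
      (fun k h' => (h _).1.2.2 (h' ▸ v1 _ (u1 _))) ⟨h4, fun x y => by
        simpa only [← u3, mem_preimage] using (j4 _ (u5 x) _ (u5 y)).imp
          ha.tendsto_atTop.eventually ha.tendsto_atTop.eventually⟩
  exact ⟨U, n, u4, fun k => ⟨(j2 k).1, v1 _ (u1 k)⟩,
    u6 _ (fun a b h => by omega) fun z => (j3 _ (u5 z)).mono fun k h => (u3 _).le h.1,
    u6 _ (fun a b h => by omega) fun z => (j3 _ (u5 z)).mono fun k h => (u3 _).le h.2⟩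

omit [TopologicalSpace Z] in
theorem nog (hX : Tw X) (h1 : range ψ = X) {𝒪 𝒲 : Set (Set Z)} (h : 𝒲 ∈ Ga 𝒪) {W : ℕ → Set Z}
    (hW : 𝒲 ⊆ range W) (g : ℕ → ℕ) (hg : ∀ n, ∀ z ∈ W n, ∃ i ∈ ψ z, n ≤ i ∧ i < g n) : False := by
  let u : ℕ → Set Z := fun m => h.2.1.natEmbedding _ m
  have u1 : Function.Injective u := Subtype.val_injective.comp (h.2.1.natEmbedding _).injective
  have u2 : ∀ m, u m ∈ 𝒲 := fun _ => Subtype.prop _
  choose ι hι using fun m => hW (u2 m)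
  have j1 : Function.Injective ι := fun m n h => u1 (by rw [← hι, h, hι])
  choose a a1 a2 using fun i => ((eventually_ge_atTop i).and
    (j1.nat_tendsto_atTop.eventually_ge_atTop i)).exists
  obtain ⟨x, hx, h2⟩ := hX.sp fun m => g (ι (a m))
  obtain ⟨z, rfl⟩ := h1.ge hx
  obtain ⟨m, h3, h4⟩ := (h2.and_eventually ((tend a1).eventually (evof u1 u2 (h.2.2 z)))).exists
  obtain ⟨i, h5, h6, h7⟩ := hg _ z ((hι _).ge (not_not.1 h4))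
  exact h7.not_ge (h3 i h5 ((a2 m).trans h6))

omit [TopologicalSpace Z] in
theorem pt (hX : Tw X) (h1 : range ψ = X) (s : Set ℕ) (hs : s.Finite) : ∃ z, ψ z = sᶜ := by
  obtain ⟨m, hm⟩ := bd hs
  exact h1.ge (hX.md _ hX.un ⟨m, fun i hi => iff_of_true (fun h => (hm h).not_ge hi) trivial⟩)

theorem ncho (hX : Tw X) (h1 : range ψ = X) (h2 : ∀ n, IsClopen {z | n ∈ ψ z}) :
    ¬ Cho (Ta (Op Z)) (Ga (Op Z)) := fun h => by
  have u5 : ∀ z, ψ z ∈ X := fun z => h1.le ⟨z, rfl⟩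
  obtain ⟨𝒱, v1, v2⟩ := h (range fun n => {z | n ∈ ψ z}) (ta_of (fun n m h => by
      obtain ⟨z, hz⟩ := pt hX h1 {m} (finite_singleton _)
      simpa [hz] using Set.ext_iff.1 h z) (fun n => (h2 n).2) (fun n h => by
      obtain ⟨z, hz⟩ := pt hX h1 {n} (finite_singleton _)
      simpa [hz] using Set.ext_iff.1 h z)
    ⟨fun z => Nat.frequently_atTop_iff_infinite.2 (hX.inf _ (u5 z)),
      fun x y => hX.ch _ (u5 x) _ (u5 y)⟩)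
  exact nog hX h1 v2 v1 (· + 1) fun n z hz => ⟨n, hz, le_rfl, n.lt_succ_self⟩

theorem nhur (hX : Tw X) (h1 : range ψ = X) (h2 : ∀ n, IsClopen {z | n ∈ ψ z}) :
    ¬ Ufin (Ga (Op Z)) (Ga (Op Z)) := fun h => by
  let V : ℕ → ℕ → Set Z := fun n k => {z | ∃ i ∈ ψ z, n ≤ i ∧ i < k}
  have v1 : ∀ n, Monotone (V n) := fun n k l h z ⟨i, a, b, c⟩ => ⟨i, a, b, c.trans_le h⟩
  have v2 : ∀ n k, V n k ≠ Set.univ := fun n k h => by
    obtain ⟨z, hz⟩ := pt hX h1 _ (finite_Iio k)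
    obtain ⟨i, a, -, c⟩ := h.ge (mem_univ z)
    exact hz.le a c
  obtain ⟨ℱ, f1, f2⟩ := h (fun n => range (V n)) fun n => ⟨ga_of (fun k => by
      simp only [V, Op, ofPred_exists, ofPred_and, mem_ofPred_eq]
      exact isOpen_iUnion fun i => (h2 i).2.inter (isOpen_const.inter isOpen_const)) (v2 n)
      fun z => by
        obtain ⟨i, a, b⟩ := (hX.inf _ (h1.le ⟨z, rfl⟩)).exists_gt n
        exact (eventually_gt_atTop i).mono fun k hk => ⟨i, a, b.le, hk⟩, fun ℱ f1 f2 h => by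
      obtain ⟨k, hk⟩ := bnd (v1 n) f2 id fun U hU => (f1 hU).imp fun _ h => h.ge
      exact v2 n k (univ_subset_iff.1 (h.ge.trans (sUnion_subset hk)))⟩
  choose g hg using fun n => bnd (v1 n) (f1 n).1 id fun U hU => ((f1 n).2 hU).imp fun _ h => h.ge
  exact nog hX h1 f2 subset_rfl g fun n z hz => sUnion_subset (hg n) hz

theorem nsq (hX : Tw X) (h1 : range ψ = X) (h2 : ∀ n, IsClopen {z | n ∈ ψ z}) {W : Type}
    [TopologicalSpace W] {p q : W → Z} (hp : Continuous p) (hq : Continuous q)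
    (h3 : ∀ x y, ∃ w, p w = x ∧ q w = y) : ¬ Cho (Om (Op W)) (Ta (Op W)) := fun h => by
  have u5 : ∀ z, ψ z ∈ X := fun z => h1.le ⟨z, rfl⟩
  let V : ℕ → Set W := fun n => {w | n ∈ ψ (p w) ∨ n ∉ ψ (q w)}
  have k1 : ∀ x ∈ X, ∀ y ∈ X, ∃ w, ∀ n, w ∈ V n ↔ n ∈ x ∨ n ∉ y := fun x hx y hy => by
    obtain ⟨a, rfl⟩ := h1.ge hx
    obtain ⟨b, rfl⟩ := h1.ge hy
    obtain ⟨w, rfl, rfl⟩ := h3 a b
    exact ⟨w, fun _ => Iff.rfl⟩
  have k2 : ∀ n, ∃ w, ∀ m, w ∈ V m ↔ m ≠ n := fun n => by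
    obtain ⟨z, hz⟩ := pt hX h1 {n} (finite_singleton _)
    simpa [hz] using k1 _ (u5 z) _ hX.un
  have k3 : Function.Injective V := fun n m h => by
    obtain ⟨w, hw⟩ := k2 m
    simpa [hw] using Set.ext_iff.1 h w
  have k4 : It fun n => {z | n ∈ ψ z} :=
    ⟨fun z => Nat.frequently_atTop_iff_infinite.2 (hX.inf _ (u5 z)),
      fun x y => hX.ch _ (u5 x) _ (u5 y)⟩
  have k5 : ∀ F : Set W, F.Finite → ∃ n, F ⊆ V n := fun F hF =>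
    (k4.fr (hF.image p)).exists.imp fun n hn w hw => Or.inl (hn ⟨w, hw, rfl⟩)
  obtain ⟨𝒱, v1, v2⟩ := h (range V) ⟨cov_of (fun n => ((h2 n).2.preimage hp).union
    ((h2 n).1.preimage hq).isOpen_compl) (fun n h => by
      obtain ⟨w, hw⟩ := k2 n
      simpa [hw] using Set.ext_iff.1 h w) fun w => (k5 {w} (finite_singleton _)).imp
        fun n h => h rfl, fun F hF => (k5 F hF).elim fun n h => ⟨_, ⟨n, rfl⟩, h⟩⟩
  have k6 : ∀ x ∈ X, ∃ x' ∈ X, (∀ᶠ i in atTop, i ∈ x' → i ∈ x) ∧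
      ∃ᶠ i in atTop, V i ∈ 𝒱 ∧ i ∈ x ∧ i ∉ x' := fun x hx => by
    obtain ⟨w, hw⟩ := k1 x hx _ hX.un
    have h4 : ∃ᶠ i in atTop, V i ∈ 𝒱 ∧ i ∈ x := Nat.frequently_atTop_iff_infinite.2
      (Infinite.of_image V ((v2.2.1 w).mono fun U hU => (v1 hU.1).elim fun n hn =>
        ⟨n, ⟨hn ▸ hU.1, by simpa using (hw n).1 (hn ▸ hU.2)⟩, hn⟩))
    choose a a1 a2 using frequently_atTop.1 h4
    obtain ⟨x', h5, h6⟩ := hX.sp fun m => a m + 1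
    have h7 : ∃ᶠ i in atTop, V i ∈ 𝒱 ∧ i ∈ x ∧ i ∉ x' := (tend a1).frequently
      (h6.mono fun m hm => ⟨(a2 m).1, (a2 m).2, fun h => (hm _ h (a1 m)).not_gt (lt_add_one _)⟩)
    exact ⟨x', h5, (hX.ch _ h5 _ hx).resolve_right fun h => by
      obtain ⟨i, h8, h9⟩ := (h7.and_eventually h).exists
      exact h8.2.2 (h9 h8.2.1), h7⟩
  obtain ⟨x, x1, -, x3⟩ := k6 _ hX.un
  obtain ⟨y, y1, -, y3⟩ := k6 _ x1
  obtain ⟨a, ha⟩ := k1 x x1 _ hX.un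
  obtain ⟨b, hb⟩ := k1 y y1 x x1
  have k7 : ∀ {c d : W}, (∃ᶠ i in atTop, V i ∈ 𝒱 ∧ c ∈ V i ∧ d ∉ V i) →
      ¬ {U ∈ 𝒱 | c ∈ U ∧ d ∉ U}.Finite := fun h h' =>
    Nat.frequently_atTop_iff_infinite.1 h (h'.preimage k3.injOn)
  exact (v2.2.2 a b).elim (k7 (y3.mono fun i h => ⟨h.1, by simp [ha, hb, h.2.1, h.2.2]⟩))
    (k7 (x3.mono fun i h => ⟨h.1, by simp [ha, hb, h.2.2]⟩))

end

theorem key (ch : continuum = (aleph 1 : Cardinal.{0})) : ∃ Z : Set ℝ, Z.Nonempty ∧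
    Sfin (Om (Op Z)) (Ta (Op Z)) ∧ Split (Om (Op Z)) (Ta (Op Z)) ∧
    ¬ Cho (Ta (Op Z)) (Ga (Op Z)) ∧ ¬ Ufin (Ga (Op Z)) (Ga (Op Z)) ∧
    ∀ (W : Type) [TopologicalSpace W] (p q : W → Z), Continuous p → Continuous q →
      (∀ x y, ∃ w, p w = x ∧ q w = y) → ¬ Cho (Om (Op W)) (Ta (Op W)) := by
  classical
  obtain ⟨X, hX⟩ := main ch
  obtain ⟨e, e1, e2, -⟩ := emb
  let φ : Set ℕ → ℝ := fun x => e fun i => decide (i ∈ x)
  have φ1 : Function.Injective φ := fun x y h => Set.ext fun i => by simpa using congrFun (e2 h) i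
  let ψ : φ '' X → Set ℕ := fun z => z.2.choose
  have ψ1 : ∀ z, ψ z ∈ X ∧ φ (ψ z) = z := fun z => z.2.choose_spec
  have h0 : Function.Injective ψ := fun a b h => Subtype.ext (by rw [← (ψ1 a).2, h, (ψ1 b).2])
  have h1 : range ψ = X := Subset.antisymm (range_subset_iff.2 fun z => (ψ1 z).1)
    fun x hx => ⟨⟨_, x, hx, rfl⟩, φ1 (ψ1 _).2⟩
  have h2 : ∀ n, IsClopen {z | n ∈ ψ z} := fun n => by
    have k : ∀ b : Bool, IsClosed {z | decide (n ∈ ψ z) = b} := fun b => by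
      convert ((e1.isClosedEmbedding e2).isClosedMap _ (isClosed_eq
        (continuous_apply (A := fun _ : ℕ => Bool) n) (continuous_const (y := b)))).preimage
        (continuous_subtype_val (p := (· ∈ φ '' X)))
      ext z
      refine ⟨fun h => ⟨_, h, (ψ1 z).2⟩, fun ⟨t, h, h'⟩ => ?_⟩
      exact (congrFun (e2 ((ψ1 z).2.trans h'.symm)) n).trans h
    exact ⟨by simpa using k true, by simpa [← isClosed_compl_iff, compl_ofPred] using k false⟩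
  have h3 : ∀ U, IsOpen U → ∃ v, Opn v ∧ ψ ⁻¹' v = U := fun U hU => by
    obtain ⟨V, v1, rfl⟩ := isOpen_induced_iff.1 hU
    refine ⟨φ ⁻¹' V, fun x hx => ?_, Set.ext fun z => by simp [(ψ1 z).2]⟩
    obtain ⟨m, hm⟩ := MP_c8e566_gt.cyl (v1.preimage e1) hx
    exact ⟨m, fun y hy => hm _ fun i hi => by simp [hy i hi]⟩
  refine ⟨φ '' X, ⟨_, _, hX.un, rfl⟩, fun 𝒰 h => ?_, fun 𝒰 h => ?_, ncho hX h1 h2, nhur hX h1 h2,
    fun W _ p q => nsq hX h1 h2⟩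
  · obtain ⟨U, n, -, u1, u2, -⟩ := sel hX h0 h1 h3 h
    refine ⟨fun m => (fun k => U (2 * k)) '' {k | n (2 * k) = m}, fun m =>
      ⟨((finite_Iic m).subset fun k hk => ?_).image _, ?_⟩, ?_⟩
    · have := (u1 (2 * k)).1
      rw [mem_ofPred_eq] at hk
      rw [mem_Iic]
      omega
    · rintro _ ⟨k, rfl, rfl⟩
      exact (u1 _).2
    · rwa [← image_iUnion, (iUnion_eq_univ_iff (f := fun m => {k | n (2 * k) = m})).2
        fun k => ⟨_, rfl⟩, image_univ]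
  · obtain ⟨U, n, u0, u1, u2, u3⟩ := sel hX h0 h1 h3 fun _ => h
    refine ⟨range fun k => U (2 * k), 𝒰 \ range fun k => U (2 * k), union_diff_cancel
      (range_subset_iff.2 fun k => (u1 _).2), disjoint_sdiff_right, ⟨_, subset_rfl, u2⟩, _,
      range_subset_iff.2 fun k => ⟨(u1 _).2, fun ⟨m, hm⟩ => ?_⟩, u3⟩
    have := u0 hm
    omega

theorem splc {Z : Type} {𝒜 ℬ : Set (Set (Set Z))} (h : Split 𝒜 ℬ) : Cho 𝒜 ℬ := fun 𝒰 h𝒰 => by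
  obtain ⟨𝒱, 𝒲, h1, -, ⟨𝒱', h2, h3⟩, -⟩ := h 𝒰 h𝒰
  exact ⟨𝒱', h2.trans (subset_union_left.trans h1.le), h3⟩

theorem finc {Z : Type} {𝒜 ℬ : Set (Set (Set Z))} (h : Sfin 𝒜 ℬ) : Cho 𝒜 ℬ := fun 𝒰 h𝒰 => by
  obtain ⟨ℱ, h1, h2⟩ := h (fun _ => 𝒰) fun _ => h𝒰
  exact ⟨_, iUnion_subset fun n => (h1 n).2, h2⟩

theorem ta_om {Z : Type} [TopologicalSpace Z] [SecondCountableTopology Z] [Nonempty Z] :
    Ta (Op Z) ⊆ Om (Op Z) := fun 𝒰 h => ⟨h.1, fun F hF => by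
  obtain ⟨u, -, u1, u2⟩ := ta_op h
  obtain ⟨m, hm⟩ := (u2.fr hF).exists
  exact ⟨_, u1 m, hm⟩⟩

end Pool.Agent.H.MP_7b70e8_gt
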